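import Pool.Agent.Helper16.BZ.Stmts
import Pool.Agent.Helper37.MD.KAT

/-! Module KT2: the criterion of Katai with all the primes of one block; constants which do not
depend on the sup norm. -/

set_option autoImplicit false

open Finset Filter MeasureTheory Topology
open scoped ComplexConjugate InnerProductSpace

namespace Pool.Agent.Helper16.BZ

open Pool.Agent.Helper16.MD (MS PB Am RW Rich kat_disj kat_pd kat_mem kat_mu kat_Am kat_B kat_sqrt)

theorem kt2_hex (hTKA : Pool.Agent.Helper16.MD.ST_TKA) (η : ℝ) (R : Finset ℕ) (f : ℕ → ℂ)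
    (hη : 0 < η) (hf : ∀ n, ‖f n‖ ≤ 1) (hR : ∀ i ∈ R, 24 / η ≤ (2 : ℝ) ^ i)
    (hA1 : 64 / η ^ 2 ≤ Am 1 R) (hfr : ∃ᶠ N : ℕ in atTop, η * N ≤ ‖MS f N‖) :
    ∃ i ∈ R, ∃ᶠ N : ℕ in atTop,
      (∑ s ∈ PB 1 i, 1 / (s : ℝ)) * (η * N / 4) ≤
      ‖∑ s ∈ PB 1 i, MS (fun y => f (s * y)) (N / s)‖ := by
  classical
  set S := R.biUnion (PB 1) with hS
  have hprime : ∀ p ∈ S, p.Prime := by
    intro p hp
    obtain ⟨i, _, hpi⟩ := Finset.mem_biUnion.1 hp
    exact (kat_mem hpi).1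
  obtain ⟨C, hC0, hC⟩ := hTKA S hprime
  rw [kat_Am] at hA1
  set A := ∑ p ∈ S, 1 / (p : ℝ) with hAd
  have hB1 := kat_B η 1 R hη hR
  have hs1 := kat_sqrt hη hA1
  have hAp : 0 < A := lt_of_lt_of_le (by positivity) hA1
  have hblocks : A = ∑ i ∈ R, ∑ s ∈ PB 1 i, 1 / (s : ℝ) := by
    rw [hAd, hS, Finset.sum_biUnion (kat_pd 1 R)]
  by_contra hcon
  have hev : ∀ᶠ N : ℕ in atTop, ∀ i ∈ R,
      ‖∑ s ∈ PB 1 i, MS (fun y => f (s * y)) (N / s)‖ ≤
      (∑ s ∈ PB 1 i, 1 / (s : ℝ)) * (η * N / 4) := by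
    rw [eventually_all_finset]
    intro i hi
    have h1 : ¬ ∃ᶠ N : ℕ in atTop, (∑ s ∈ PB 1 i, 1 / (s : ℝ)) * (η * N / 4) ≤
        ‖∑ s ∈ PB 1 i, MS (fun y => f (s * y)) (N / s)‖ := by
      intro h; exact hcon ⟨i, hi, h⟩
    rw [not_frequently] at h1
    filter_upwards [h1] with N hN
    exact (not_le.1 hN).le
  obtain ⟨N0, hN0⟩ := exists_nat_gt ((4 * C / (A * η)) ^ 2)
  obtain ⟨N, hN1, hN2, hN3⟩ := (hfr.and_eventually
    (hev.and (eventually_ge_atTop (N0 + 1)))).exists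
  have hNR : (0 : ℝ) < N := by exact_mod_cast (by omega : 0 < N)
  have hN0N : (N0 : ℝ) ≤ N := by exact_mod_cast (by omega : N0 ≤ N)
  have hsq : 4 * C / (A * η) < Real.sqrt N := by
    apply Real.lt_sqrt_of_sq_lt
    linarith
  have hsqpos : 0 < Real.sqrt N := Real.sqrt_pos.2 hNR
  have hmul : Real.sqrt N * Real.sqrt N = N := Real.mul_self_sqrt hNR.le
  have hCN : C * Real.sqrt N < A * η * N / 4 := by
    rw [div_lt_iff₀ (by positivity)] at hsq
    have : 4 * C * Real.sqrt N < Real.sqrt N * (A * η) * Real.sqrt N :=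
      mul_lt_mul_of_pos_right hsq hsqpos
    nlinarith
  have hTK := hC f N hf
  set X : ℂ := ∑ p ∈ S, MS (fun y => f (p * y)) (N / p) with hX
  have hXsum : X = ∑ i ∈ R, ∑ s ∈ PB 1 i, MS (fun y => f (s * y)) (N / s) := by
    rw [hX, hS, Finset.sum_biUnion (kat_pd 1 R)]
  have hXle : ‖X‖ ≤ A * (η * N / 4) := by
    rw [hXsum, hblocks, Finset.sum_mul]
    exact (norm_sum_le _ _).trans (Finset.sum_le_sum fun i hi => hN2 i hi)
  have hnorm : ‖((A : ℝ) : ℂ) * MS f N‖ = A * ‖MS f N‖ := by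
    rw [norm_mul, Complex.norm_real, Real.norm_of_nonneg hAp.le]
  have htri : A * ‖MS f N‖ ≤ ‖((A : ℝ) : ℂ) * MS f N + X‖ + ‖X‖ := by
    rw [← hnorm]
    have := norm_sub_le (((A : ℝ) : ℂ) * MS f N + X) X
    rwa [add_sub_cancel_right] at this
  have hlowA : A * (η * N) ≤ A * ‖MS f N‖ := mul_le_mul_of_nonneg_left hN1 hAp.le
  have hE : (N : ℝ) * (Real.sqrt A + ∑ p ∈ S, 1 / (p : ℝ) ^ 2) ≤ N * (A * η / 2) := by
    apply mul_le_mul_of_nonneg_left _ hNR.le
    have h3 : 0 < A * η := by positivity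
    have h4 : Real.sqrt A + ∑ p ∈ S, 1 / (p : ℝ) ^ 2 ≤ A * (η / 8) + A * (η / 24) :=
      add_le_add hs1 hB1
    nlinarith
  have hTK2 : ‖((A : ℝ) : ℂ) * MS f N + X‖ ≤ N * (A * η / 2) + C * Real.sqrt N :=
    hTK.trans (by linarith)
  nlinarith

theorem kt2_hexV (hTKA : Pool.Agent.Helper16.MD.ST_TKA) (η V : ℝ) (R : Finset ℕ) (f : ℕ → ℂ)
    (hη : 0 < η) (hV : 1 ≤ V) (hf : ∀ n, ‖f n‖ ≤ V) (hR : ∀ i ∈ R, 24 * V / η ≤ (2 : ℝ) ^ i)
    (hA1 : 64 * V ^ 2 / η ^ 2 ≤ Am 1 R) (hfr : ∃ᶠ N : ℕ in atTop, η * N ≤ ‖MS f N‖) :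
    ∃ i ∈ R, ∃ᶠ N : ℕ in atTop,
      (∑ s ∈ PB 1 i, 1 / (s : ℝ)) * (η * N / 4) ≤
      ‖∑ s ∈ PB 1 i, MS (fun y => f (s * y)) (N / s)‖ := by
  have hV0 : 0 < V := by linarith
  have hsc : ∀ (g : ℕ → ℂ) (N : ℕ), MS (fun n => ((V⁻¹ : ℝ) : ℂ) * g n) N =
      ((V⁻¹ : ℝ) : ℂ) * MS g N := by
    intro g N
    unfold MS
    rw [Finset.mul_sum]
    refine Finset.sum_congr rfl fun n _ => ?_
    ring
  have hn : ‖((V⁻¹ : ℝ) : ℂ)‖ = V⁻¹ := by
    rw [Complex.norm_real, Real.norm_of_nonneg (inv_nonneg.2 hV0.le)]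
  obtain ⟨i, hi, h⟩ := kt2_hex hTKA (η / V) R (fun n => ((V⁻¹ : ℝ) : ℂ) * f n) (by positivity)
    (fun n => by
      rw [norm_mul, hn, inv_mul_le_iff₀ hV0, mul_one]
      exact hf n)
    (fun i hi => by
      have e : 24 / (η / V) = 24 * V / η := by field_simp
      rw [e]; exact hR i hi)
    (by
      have e : 64 / (η / V) ^ 2 = 64 * V ^ 2 / η ^ 2 := by field_simp
      rw [e]; exact hA1)
    (hfr.mono fun N hN => by
      rw [hsc, norm_mul, hn]
      have e : η / V * N = V⁻¹ * (η * N) := by field_simp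
      rw [e]
      exact mul_le_mul_of_nonneg_left hN (inv_nonneg.2 hV0.le))
  refine ⟨i, hi, h.mono fun N hN => ?_⟩
  have e1 : ∑ s ∈ PB 1 i, MS (fun y => ((V⁻¹ : ℝ) : ℂ) * f (s * y)) (N / s) =
      ((V⁻¹ : ℝ) : ℂ) * ∑ s ∈ PB 1 i, MS (fun y => f (s * y)) (N / s) := by
    rw [Finset.mul_sum]
    exact Finset.sum_congr rfl fun s _ => hsc (fun y => f (s * y)) (N / s)
  rw [e1, norm_mul, hn] at hN
  have e2 : (∑ s ∈ PB 1 i, 1 / (s : ℝ)) * (η / V * N / 4) =
      V⁻¹ * ((∑ s ∈ PB 1 i, 1 / (s : ℝ)) * (η * N / 4)) := by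
    field_simp
  rw [e2] at hN
  exact le_of_mul_le_mul_left hN (inv_pos.2 hV0)

theorem kt2_cs (f : ℕ → ℂ) (Q : Finset ℕ) (M : ℕ) :
    ‖∑ p ∈ Q, MS (fun y => f (p * y)) M‖ ^ 2 ≤
      M * ∑ y ∈ Icc 1 M, ‖∑ p ∈ Q, f (p * y)‖ ^ 2 := by
  have e1 : ∑ p ∈ Q, MS (fun y => f (p * y)) M =
      ∑ y ∈ Icc 1 M, ((ArithmeticFunction.moebius y : ℤ) : ℂ) * ∑ p ∈ Q, f (p * y) := by
    unfold MS
    rw [Finset.sum_comm]
    exact Finset.sum_congr rfl fun y _ => by rw [Finset.mul_sum]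
  have h1 : ‖∑ p ∈ Q, MS (fun y => f (p * y)) M‖ ≤ ∑ y ∈ Icc 1 M, ‖∑ p ∈ Q, f (p * y)‖ := by
    rw [e1]
    refine (norm_sum_le _ _).trans (Finset.sum_le_sum fun y _ => ?_)
    rw [norm_mul]
    have h2 := kat_mu y
    have h3 := norm_nonneg (∑ p ∈ Q, f (p * y))
    nlinarith
  have h2 : (∑ y ∈ Icc 1 M, ‖∑ p ∈ Q, f (p * y)‖) ^ 2 ≤
      (M : ℝ) * ∑ y ∈ Icc 1 M, ‖∑ p ∈ Q, f (p * y)‖ ^ 2 := by
    have := sq_sum_le_card_mul_sum_sq (s := Icc 1 M) (f := fun y => ‖∑ p ∈ Q, f (p * y)‖)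
    simpa using this
  exact (pow_le_pow_left₀ (norm_nonneg _) h1 2).trans h2

theorem kt2_diff (f : ℕ → ℂ) (p a b : ℕ) (hab : a ≤ b) :
    ‖MS (fun y => f (p * y)) b - MS (fun y => f (p * y)) a‖ ^ 2 ≤
      ((b : ℝ) - a) * ∑ y ∈ Icc 1 b, ‖f (p * y)‖ ^ 2 := by
  classical
  have hsub : Icc 1 a ⊆ Icc 1 b := Finset.Icc_subset_Icc_right hab
  have e1 : MS (fun y => f (p * y)) b - MS (fun y => f (p * y)) a =
      ∑ y ∈ Icc 1 b \ Icc 1 a, ((ArithmeticFunction.moebius y : ℤ) : ℂ) * f (p * y) := by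
    unfold MS
    rw [← Finset.sum_sdiff hsub]
    ring
  have hcard : (((Icc 1 b \ Icc 1 a).card : ℕ) : ℝ) = (b : ℝ) - a := by
    rw [Finset.card_sdiff_of_subset hsub, Nat.card_Icc, Nat.card_Icc]
    have : b + 1 - 1 - (a + 1 - 1) = b - a := by omega
    rw [this, Nat.cast_sub hab]
  have h1 : ‖MS (fun y => f (p * y)) b - MS (fun y => f (p * y)) a‖ ≤
      ∑ y ∈ Icc 1 b \ Icc 1 a, ‖f (p * y)‖ := by
    rw [e1]
    refine (norm_sum_le _ _).trans (Finset.sum_le_sum fun y _ => ?_)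
    rw [norm_mul]
    have h2 := kat_mu y
    have h3 := norm_nonneg (f (p * y))
    nlinarith
  have h2 := sq_sum_le_card_mul_sum_sq (s := Icc 1 b \ Icc 1 a) (f := fun y => ‖f (p * y)‖)
  rw [hcard] at h2
  have h3 : ∑ y ∈ Icc 1 b \ Icc 1 a, ‖f (p * y)‖ ^ 2 ≤ ∑ y ∈ Icc 1 b, ‖f (p * y)‖ ^ 2 :=
    Finset.sum_le_sum_of_subset_of_nonneg Finset.sdiff_subset fun _ _ _ => by positivity
  have h4 : (0 : ℝ) ≤ (b : ℝ) - a := sub_nonneg.2 (by exact_mod_cast hab)
  exact (pow_le_pow_left₀ (norm_nonneg _) h1 2).trans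
    (h2.trans (mul_le_mul_of_nonneg_left h3 h4))

theorem kt2_real (n P J j : ℝ) (hn : 0 ≤ n) (hP : 0 < P) (hJ : 0 < J) (hj : 0 ≤ j) :
    n * J / (P * (J + j)) - n * J / (P * (J + j + 1)) ≤ n / (J * P) := by
  have h1 : 0 < J + j := by linarith
  have h2 : 0 < J + j + 1 := by linarith
  have e : n * J / (P * (J + j)) - n * J / (P * (J + j + 1)) =
      n * J / (P * ((J + j) * (J + j + 1))) := by
    field_simp
    ring
  rw [e, div_le_div_iff₀ (by positivity) (by positivity)]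
  have h3 : J * J ≤ (J + j) * (J + j + 1) := by nlinarith
  have h4 : 0 ≤ n * P := by positivity
  nlinarith

theorem kt2_gap (N P J j p : ℕ) (hP : 1 ≤ P) (hJ : 1 ≤ J) (hp : 1 ≤ p)
    (h1 : P * (J + j) ≤ p * J) (h2 : p * J ≤ P * (J + j + 1)) :
    (N * J) / (P * (J + j + 1)) ≤ N / p ∧
      ((N / p : ℕ) : ℝ) - (((N * J) / (P * (J + j + 1)) : ℕ) : ℝ) ≤ (N : ℝ) / (J * P) + 1 := by
  have hPJ : 0 < P * (J + j + 1) := Nat.mul_pos (by omega) (by omega)
  constructor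
  · rw [Nat.le_div_iff_mul_le (by omega)]
    have h3 : (N * J) / (P * (J + j + 1)) * (P * (J + j + 1)) ≤ N * J := Nat.div_mul_le_self _ _
    have h4 : (N * J) / (P * (J + j + 1)) * p * J ≤ N * J := by
      calc (N * J) / (P * (J + j + 1)) * p * J = (N * J) / (P * (J + j + 1)) * (p * J) := by ring
        _ ≤ (N * J) / (P * (J + j + 1)) * (P * (J + j + 1)) := Nat.mul_le_mul_left _ h2
        _ ≤ N * J := h3
    exact Nat.le_of_mul_le_mul_right h4 (by omega)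
  · have hPR : (0 : ℝ) < P := by exact_mod_cast hP
    have hJR : (0 : ℝ) < J := by exact_mod_cast hJ
    have hpR : (0 : ℝ) < p := by exact_mod_cast hp
    have hjR : (0 : ℝ) ≤ j := Nat.cast_nonneg _
    have h3 : N * J < ((N * J) / (P * (J + j + 1)) + 1) * (P * (J + j + 1)) :=
      Nat.lt_mul_of_div_lt (Nat.lt_succ_self _) hPJ
    have h4 : (N : ℝ) * J / (P * (J + j + 1)) ≤
        (((N * J) / (P * (J + j + 1)) : ℕ) : ℝ) + 1 := by
      rw [div_le_iff₀ (by positivity)]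
      have : ((N * J : ℕ) : ℝ) ≤
          ((((N * J) / (P * (J + j + 1)) + 1) * (P * (J + j + 1)) : ℕ) : ℝ) := by
        exact_mod_cast h3.le
      push_cast at this ⊢
      linarith
    have h5 : ((N / p : ℕ) : ℝ) ≤ (N : ℝ) * J / (P * (J + j)) := by
      refine (Nat.cast_div_le).trans ?_
      rw [div_le_div_iff₀ hpR (by positivity)]
      have h6 : (P : ℝ) * (J + j) ≤ p * J := by exact_mod_cast h1
      have h7 : (0 : ℝ) ≤ N := Nat.cast_nonneg _
      nlinarith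
    have h6 := kt2_real (N : ℝ) P J j (Nat.cast_nonneg _) hPR hJR hjR
    linarith

theorem kt2_tend (a b : ℕ) (ha : 1 ≤ a) (hb : 1 ≤ b) :
    Tendsto (fun N : ℕ => (N * a) / b) atTop atTop := by
  refine tendsto_atTop.2 fun x => eventually_atTop.2 ⟨x * b, fun N hN => ?_⟩
  rw [Nat.le_div_iff_mul_le (by omega)]
  exact hN.trans (Nat.le_mul_of_pos_right _ (by omega))

theorem st_KT2 (h : Pool.Agent.Helper16.MD.ST_TKA) : ST_KT2 := by
  classical
  intro η hη hη1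
  obtain ⟨J, hJ⟩ := exists_nat_ge (4096 / η ^ 2)
  have hJ0 : (0 : ℝ) < J := lt_of_lt_of_le (by positivity) hJ
  have hJ1 : 1 ≤ J := by
    have : 0 < J := by exact_mod_cast hJ0
    omega
  have hJη : 4 / (J : ℝ) ≤ (η / 32) ^ 2 := by
    rw [div_le_iff₀ hJ0]
    rw [div_le_iff₀ (by positivity)] at hJ
    nlinarith
  refine ⟨(η / (16 * J)) ^ 2, by positivity, ?_⟩
  intro V R f hV hf h2 hR hA hfr
  obtain ⟨i, hi, hfreq⟩ := kt2_hexV h η V R f hη hV hf hR hA hfr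
  refine ⟨i, hi, ?_⟩
  obtain ⟨P, hP⟩ : ∃ P : ℕ, P = 2 ^ i := ⟨_, rfl⟩
  have hP1 : 1 ≤ P := by rw [hP]; exact Nat.one_le_two_pow
  have hPR : (0 : ℝ) < P := by exact_mod_cast hP1
  obtain ⟨B, hB⟩ : ∃ B : Finset ℕ, B = PB 1 i := ⟨_, rfl⟩
  rw [← hB] at hfreq ⊢
  have hmem : ∀ p ∈ B, P < p ∧ p ≤ 2 * P := by
    intro p hp
    rw [hB] at hp
    obtain ⟨_, a2, a3, _⟩ := kat_mem hp
    rw [hP]
    rw [pow_succ] at a3
    exact ⟨a2, by omega⟩
  obtain ⟨jj, hjj⟩ : ∃ jj : ℕ → ℕ, jj = fun p => ((p - P) * J - 1) / P := ⟨_, rfl⟩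
  have hjp : ∀ p ∈ B, jj p < J ∧ P * (J + jj p) ≤ p * J ∧ p * J ≤ P * (J + jj p + 1) := by
    intro p hp
    obtain ⟨b1, b2⟩ := hmem p hp
    obtain ⟨d, rfl⟩ : ∃ d, p = P + d := ⟨p - P, by omega⟩
    have hd : 1 ≤ d := by omega
    have hdP : d ≤ P := by omega
    have e : jj (P + d) = (d * J - 1) / P := by
      rw [hjj]
      simp only [Nat.add_sub_cancel_left]
    have hdJ : 1 ≤ d * J := Nat.mul_pos (by omega) (by omega)
    have hdJP : d * J ≤ P * J := Nat.mul_le_mul_right _ hdP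
    refine ⟨?_, ?_, ?_⟩
    · rw [e, Nat.div_lt_iff_lt_mul (by omega), mul_comm J P]
      omega
    · have h5 : (d * J - 1) / P * P ≤ d * J - 1 := Nat.div_mul_le_self _ _
      rw [e, mul_add, add_mul, mul_comm P ((d * J - 1) / P)]
      omega
    · have h5 : d * J - 1 < ((d * J - 1) / P + 1) * P :=
        Nat.lt_mul_of_div_lt (Nat.lt_succ_self _) (by omega)
      have e2 : P * (J + (d * J - 1) / P + 1) = P * J + ((d * J - 1) / P + 1) * P := by ring
      rw [e, e2, add_mul]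
      omega
  obtain ⟨MM, hMM⟩ : ∃ MM : ℕ → ℕ → ℕ, MM = fun j N => (N * J) / (P * (J + j + 1)) := ⟨_, rfl⟩
  -- the second moments
  have hev2 : ∀ᶠ N : ℕ in atTop, ∀ p ∈ B, ∑ y ∈ Icc 1 (N / p), ‖f (p * y)‖ ^ 2 ≤
      2 * ((N : ℝ) / P) := by
    rw [eventually_all_finset]
    intro p hp
    obtain ⟨b1, b2⟩ := hmem p hp
    have ht : Tendsto (fun N : ℕ => N / p) atTop atTop := by
      have := kt2_tend 1 p le_rfl (by omega)
      simpa using this
    filter_upwards [ht.eventually (h2 p (by omega))] with N hN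
    refine hN.trans (mul_le_mul_of_nonneg_left ?_ (by norm_num))
    refine (Nat.cast_div_le).trans ?_
    apply div_le_div_of_nonneg_left (Nat.cast_nonneg _) hPR
    exact_mod_cast b1.le
  -- one interval
  have hex : ∃ j ∈ range J, ∃ᶠ N : ℕ in atTop, (η / (16 * J)) * (B.card : ℝ) * (MM j N : ℝ) ≤
      ‖∑ p ∈ B.filter (fun p => jj p = j), MS (fun y => f (p * y)) (MM j N)‖ := by
    by_contra hcon
    have hev : ∀ᶠ N : ℕ in atTop, ∀ j ∈ range J,
        ‖∑ p ∈ B.filter (fun p => jj p = j), MS (fun y => f (p * y)) (MM j N)‖ <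
        (η / (16 * J)) * (B.card : ℝ) * (MM j N : ℝ) := by
      rw [eventually_all_finset]
      intro j hj
      have h1 : ¬ ∃ᶠ N : ℕ in atTop, (η / (16 * J)) * (B.card : ℝ) * (MM j N : ℝ) ≤
          ‖∑ p ∈ B.filter (fun p => jj p = j), MS (fun y => f (p * y)) (MM j N)‖ := by
        intro h; exact hcon ⟨j, hj, h⟩
      rw [not_frequently] at h1
      filter_upwards [h1] with N hN
      exact not_le.1 hN
    obtain ⟨N, hN1, hN2, hN3, hN4⟩ := (hfreq.and_eventually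
      (hev.and (hev2.and (eventually_ge_atTop (J * P))))).exists
    have hNR : (0 : ℝ) ≤ N := Nat.cast_nonneg _
    have hNJP : (J : ℝ) * P ≤ N := by exact_mod_cast hN4
    -- lower bound
    have hlow : (B.card : ℝ) / (2 * P) * (η * N / 4) ≤
        ‖∑ s ∈ B, MS (fun y => f (s * y)) (N / s)‖ := by
      refine (mul_le_mul_of_nonneg_right ?_ (by positivity)).trans hN1
      have : ∑ s ∈ B, (1 : ℝ) / (2 * P) ≤ ∑ s ∈ B, 1 / (s : ℝ) := by
        apply Finset.sum_le_sum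
        intro s hs
        obtain ⟨s1, s2⟩ := hmem s hs
        apply one_div_le_one_div_of_le
        · exact_mod_cast (by omega : 0 < s)
        · exact_mod_cast s2
      rw [Finset.sum_const, nsmul_eq_mul, mul_one_div] at this
      exact this
    -- the errors
    have herr : ∀ p ∈ B, ‖MS (fun y => f (p * y)) (N / p) -
        MS (fun y => f (p * y)) (MM (jj p) N)‖ ≤ η / 32 * ((N : ℝ) / P) := by
      intro p hp
      obtain ⟨b1, b2⟩ := hmem p hp
      obtain ⟨c1, c2, c3⟩ := hjp p hp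
      obtain ⟨d1, d2⟩ := kt2_gap N P J (jj p) p hP1 hJ1 (by omega) c2 c3
      have hMe : MM (jj p) N = (N * J) / (P * (J + jj p + 1)) := by rw [hMM]
      rw [← hMe] at d1 d2
      have h3 := kt2_diff f p (MM (jj p) N) (N / p) d1
      have h4 := hN3 p hp
      have h5 : ((N / p : ℕ) : ℝ) - (MM (jj p) N : ℝ) ≤ 2 * ((N : ℝ) / (J * P)) := by
        have : (1 : ℝ) ≤ (N : ℝ) / (J * P) := by
          rw [le_div_iff₀ (by positivity), one_mul]
          exact hNJP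
        linarith
      have h6 : ‖MS (fun y => f (p * y)) (N / p) - MS (fun y => f (p * y)) (MM (jj p) N)‖ ^ 2 ≤
          (2 * ((N : ℝ) / (J * P))) * (2 * ((N : ℝ) / P)) := by
        refine h3.trans (mul_le_mul h5 h4 (by positivity) (by positivity))
      have h7 : (2 * ((N : ℝ) / (J * P))) * (2 * ((N : ℝ) / P)) = 4 / J * ((N : ℝ) / P) ^ 2 := by
        field_simp
        ring
      have h8 : 4 / J * ((N : ℝ) / P) ^ 2 ≤ (η / 32 * ((N : ℝ) / P)) ^ 2 := by
        rw [mul_pow]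
        exact mul_le_mul_of_nonneg_right hJη (by positivity)
      rw [h7] at h6
      exact (pow_le_pow_iff_left₀ (norm_nonneg _) (by positivity) two_ne_zero).1 (h6.trans h8)
    -- upper bound
    have hup : ‖∑ p ∈ B, MS (fun y => f (p * y)) (MM (jj p) N)‖ ≤
        η / 16 * ((B.card : ℝ) * ((N : ℝ) / P)) := by
      rw [← Finset.sum_fiberwise_of_maps_to (s := B) (t := range J) (g := jj)
        (fun p hp => Finset.mem_range.2 (hjp p hp).1)]
      have h3 : ∀ j ∈ range J, ‖∑ p ∈ B with jj p = j, MS (fun y => f (p * y)) (MM (jj p) N)‖ ≤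
          (η / (16 * J)) * (B.card : ℝ) * ((N : ℝ) / P) := by
        intro j hj
        have e : ∑ p ∈ B with jj p = j, MS (fun y => f (p * y)) (MM (jj p) N) =
            ∑ p ∈ B with jj p = j, MS (fun y => f (p * y)) (MM j N) :=
          Finset.sum_congr rfl fun p hp => by rw [(Finset.mem_filter.1 hp).2]
        rw [e]
        refine (hN2 j hj).le.trans (mul_le_mul_of_nonneg_left ?_ (by positivity))
        rw [hMM]
        refine (Nat.cast_div_le).trans ?_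
        rw [div_le_div_iff₀ (by positivity) hPR]
        push_cast
        have hj0 : (0 : ℝ) ≤ j := Nat.cast_nonneg _
        have : (0 : ℝ) ≤ N * P * (j + 1) := by positivity
        nlinarith
      refine (norm_sum_le _ _).trans ((Finset.sum_le_sum h3).trans ?_)
      rw [Finset.sum_const, Finset.card_range, nsmul_eq_mul]
      apply le_of_eq
      field_simp
    have htri : ‖∑ s ∈ B, MS (fun y => f (s * y)) (N / s)‖ ≤
        η / 16 * ((B.card : ℝ) * ((N : ℝ) / P)) + (B.card : ℝ) * (η / 32 * ((N : ℝ) / P)) := by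
      have e : ∑ s ∈ B, MS (fun y => f (s * y)) (N / s) =
          ∑ p ∈ B, MS (fun y => f (p * y)) (MM (jj p) N) +
          ∑ p ∈ B, (MS (fun y => f (p * y)) (N / p) - MS (fun y => f (p * y)) (MM (jj p) N)) := by
        rw [← Finset.sum_add_distrib]
        exact Finset.sum_congr rfl fun p _ => by ring
      rw [e]
      refine (norm_add_le _ _).trans (add_le_add hup ?_)
      refine (norm_sum_le _ _).trans ((Finset.sum_le_sum herr).trans ?_)
      rw [Finset.sum_const, nsmul_eq_mul]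
    rcases Nat.eq_zero_or_pos B.card with h0 | h0
    · -- no primes: contradiction with the strict inequality
      have h3 := hN2 0 (Finset.mem_range.2 (by omega))
      rw [h0] at h3
      simp only [Nat.cast_zero, mul_zero, zero_mul] at h3
      exact absurd h3 (not_lt.2 (norm_nonneg _))
    · have hBp : (0 : ℝ) < B.card := by exact_mod_cast h0
      have hNp : (0 : ℝ) < (N : ℝ) / P := by
        apply div_pos _ hPR
        exact lt_of_lt_of_le (by positivity) hNJP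
      have e1 : (B.card : ℝ) / (2 * P) * (η * N / 4) = η / 8 * ((B.card : ℝ) * ((N : ℝ) / P)) := by
        field_simp
        ring
      rw [e1] at hlow
      have h3 := hlow.trans htri
      have h4 : 0 < η * ((B.card : ℝ) * ((N : ℝ) / P)) := by positivity
      nlinarith
  obtain ⟨j, hj, hfj⟩ := hex
  refine ⟨B.filter (fun p => jj p = j), Finset.filter_subset _ _, ?_⟩
  have ht : Tendsto (MM j) atTop atTop := by
    rw [hMM]
    exact kt2_tend J (P * (J + j + 1)) hJ1 (Nat.mul_pos (by omega) (by omega))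
  have hfM : ∃ᶠ M : ℕ in atTop, (η / (16 * J)) * (B.card : ℝ) * (M : ℝ) ≤
      ‖∑ p ∈ B.filter (fun p => jj p = j), MS (fun y => f (p * y)) M‖ :=
    ht.frequently hfj
  refine (hfM.and_eventually (eventually_ge_atTop 1)).mono ?_
  rintro M ⟨hM1, hM2⟩
  have hMR : (0 : ℝ) < M := by exact_mod_cast hM2
  have h3 := kt2_cs f (B.filter (fun p => jj p = j)) M
  have h4 := (pow_le_pow_left₀ (by positivity) hM1 2).trans h3
  have e : ((η / (16 * J)) * (B.card : ℝ) * (M : ℝ)) ^ 2 =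
      M * ((η / (16 * J)) ^ 2 * (B.card : ℝ) ^ 2 * M) := by ring
  rw [e] at h4
  exact le_of_mul_le_mul_left h4 hMR

end Pool.Agent.Helper16.BZ
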